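/-!
# Namespaces used by the modules on zero-cycles (registered here so that they can be opened
without importing the modules)
-/

namespace VC
end VC

namespace VQ
end VQ

namespace VP
end VP

namespace VF
end VF

namespace VH
end VH

namespace BQ
end BQ

namespace CY
end CY

namespace Pool.Agent.Helper51.EW
end Pool.Agent.Helper51.EW

namespace Pool.Agent.Helper83.EW
end Pool.Agent.Helper83.EW

namespace Pool.Agent.Helper94.EW
end Pool.Agent.Helper94.EW

namespace Pool.Agent.Helper70.VF
end Pool.Agent.Helper70.VF
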